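import Pool.Agent.R374.TateSchur

/-!
# Tate cohomology of `σ`-fixed representations is admissible

`F` is a non-archimedean local field of residue characteristic different from the prime `p` (for a
local function field: of characteristic different from `p`), `G` is a closed subgroup of `GL_n(F)`,
for instance the group of `F`-points of a reductive group over `F`, `σ` is a continuous
automorphism of `G` with `σ ^ p = 1`, and `k` is an algebraically closed field of characteristic
`p`. For an irreducible admissible representation `ρ` of `G` over `k` with `ρ ≅ ρ ∘ σ` we prove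
that the action of `G` extends in exactly one way to `G ⋊ ⟨σ⟩` and that both Tate cohomology
groups are admissible representations of `G^σ`.

The idea of the proof: let `U` be a small `σ`-stable compact open subgroup, of pro-order prime to
`p`, and let `v` be a `σ`-fixed vector whose class in `T^0` is fixed by `U^σ`. Sum `u v` over the
cosets `u` of an open `σ`-stable subgroup `U'` of `U` fixing `v`. The cosets which are not fixed by
`σ` contribute a norm; each coset fixed by `σ` contains an element of `U^σ` and contributes the
class of `v`; their number is prime to `p`. Hence the class of `v` is represented by a vector fixed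
by `U`, that is `T^0(ρ)^(U^σ)` is the image of `T^0(ρ^U)`. The same argument works for `T^1`.
-/

namespace Pool.Agent.Results.MP_60b77b_nt.TateAdmissible

open ValuativeRel Pool.Agent.R374.Tate

/-- **Tate cohomology of `σ`-fixed irreducible admissible representations is admissible.** -/
theorem result {p : ℕ} (hp : p.Prime)
    {F : Type*} [Field F] [ValuativeRel F] [TopologicalSpace F] [IsNonarchimedeanLocalField F]
    (hF : (p : 𝓀[F]) ≠ 0)
    {n : ℕ} (G : Subgroup (GL (Fin n) F)) (hG : IsClosed (G : Set (GL (Fin n) F)))
    (σ : G ≃* G) (hσc : Continuous σ) (hσp : ∀ g, σ^[p] g = g)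
    {k : Type*} [Field k] [IsAlgClosed k] [CharP k p]
    {V : Type*} [AddCommGroup V] [Module k V] (ρ : Representation k G V)
    (hirr : IsIrred ρ) (hadm : IsAdmissible ρ)
    (hfix : ∃ e : V ≃ₗ[k] V, ∀ g v, e (ρ g v) = ρ (σ g) (e v)) :
    (∃! A : V →ₗ[k] V, IsAction ρ σ p A) ∧
      ∀ (A : V →ₗ[k] V) (hA : IsAction ρ σ p A),
        IsAdmissible (tateZero hA) ∧ IsAdmissible (tateOne hA) := by
  haveI : T2Space F := t2_local
  obtain ⟨U₀, hUo, hUc, hpr⟩ := exists_proPrime hp (valuation_natCast_eq_one hF) G hG
  refine ⟨exists_unique_action hp hirr hadm hUo hUc hσp hfix, ?_⟩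
  intro A hA
  exact main_abstract hp hA hσp hσc (exists_open_subgroup G) hUo hUc hpr hadm

end Pool.Agent.Results.MP_60b77b_nt.TateAdmissible
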